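import Mathlib

set_option autoImplicit false
open Classical

/-!
Abstract counting of partitions of regions into product boxes, one of whose factors is a
dyadic interval.  Everything is a finite sum of nonnegative reals.
-/

namespace Pool.Agent.H27.Dyadic

open Finset NNReal

/-- indicator of a proposition. -/
noncomputable def ind (p : Prop) : ℕ := if p then 1 else 0

@[simp] lemma ind_true : ind True = 1 := by simp [ind]
@[simp] lemma ind_false : ind False = 0 := by simp [ind]
lemma ind_of {p : Prop} (h : p) : ind p = 1 := by simp [ind, h]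
lemma ind_not {p : Prop} (h : ¬ p) : ind p = 0 := by simp [ind, h]
lemma ind_pos {p : Prop} : 0 < ind p ↔ p := by
  by_cases h : p <;> simp [ind, h]
lemma ind_le (p : Prop) : ind p ≤ 1 := by
  by_cases h : p <;> simp [ind, h]

/-- number of members of `P` that contain `x`. -/
noncomputable def cnt {β X : Type*} [Fintype β] (mem : β → X → Prop) (P : Finset β) (x : X) : ℕ :=
  ∑ b : β, ind (b ∈ P ∧ mem b x)

/-- `P` is a partition of the region `S`. -/
def IsPart {β X : Type*} [Fintype β] (mem : β → X → Prop) (P : Finset β) (S : Set X) : Prop :=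
  ∀ x, cnt mem P x = ind (x ∈ S)

/-- `P` is a packing inside the region `S`. -/
def IsPack {β X : Type*} [Fintype β] (mem : β → X → Prop) (P : Finset β) (S : Set X) : Prop :=
  ∀ x, cnt mem P x ≤ ind (x ∈ S)

/-- the region covered by `P`. -/
def cover {β X : Type*} (mem : β → X → Prop) (P : Finset β) : Set X :=
  {x | ∃ b ∈ P, mem b x}

/-- generating function of the partitions of `S`. -/
noncomputable def F {β X : Type*} [Fintype β] (mem : β → X → Prop) (l : ℝ≥0) (S : Set X) : ℝ≥0 :=
  ∑ P : Finset β, if IsPart mem P S then l ^ P.card else 0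

/-- the maximal weight of a partition. -/
noncomputable def G {β X : Type*} [Fintype β] (mem : β → X → Prop) (c : ℝ≥0) (S : Set X) : ℝ≥0 :=
  (Finset.univ : Finset (Finset β)).sup (fun P => if IsPart mem P S then c ^ P.card else 0)

/-- all generating functions are at most one. -/
def Good {β X : Type*} [Fintype β] (mem : β → X → Prop) (l : ℝ≥0) : Prop :=
  ∀ S : Set X, F mem l S ≤ 1

lemma sum_le_of_inj {α γ : Type*} [Fintype α] [Fintype γ] (φ : α → γ)
    (f : α → ℝ≥0) (h : γ → ℝ≥0)
    (hφ : ∀ a b, f a ≠ 0 → f b ≠ 0 → φ a = φ b → a = b)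
    (hle : ∀ a, f a ≠ 0 → f a ≤ h (φ a)) :
    ∑ a, f a ≤ ∑ c, h c := by
  have h1 : ∑ a, f a = ∑ a ∈ univ.filter (fun a => f a ≠ 0), f a := by
    rw [Finset.sum_filter]
    apply Finset.sum_congr rfl
    intro a _
    by_cases hfa : f a = 0 <;> simp [hfa]
  rw [h1]
  calc ∑ a ∈ univ.filter (fun a => f a ≠ 0), f a
      ≤ ∑ a ∈ univ.filter (fun a => f a ≠ 0), h (φ a) := by
        apply Finset.sum_le_sum
        intro a ha
        exact hle a (by simpa using ha)
    _ = ∑ c ∈ (univ.filter (fun a => f a ≠ 0)).image φ, h c := by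
        rw [Finset.sum_image]
        intro a ha b hb hab
        exact hφ a b (by simpa using ha) (by simpa using hb) hab
    _ ≤ ∑ c, h c := by
        apply Finset.sum_le_sum_of_subset (Finset.subset_univ _)

section basic

variable {β X : Type*} [Fintype β] (mem : β → X → Prop)

lemma cnt_pos_iff (P : Finset β) (x : X) : 0 < cnt mem P x ↔ x ∈ cover mem P := by
  unfold cnt cover
  rw [Finset.sum_pos_iff]
  simp only [Finset.mem_univ, true_and, Set.mem_ofPred_eq]
  simp only [ind_pos]

lemma cnt_eq_zero_iff (P : Finset β) (x : X) : cnt mem P x = 0 ↔ x ∉ cover mem P := by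
  rw [← cnt_pos_iff]; omega

lemma cnt_union (P Q : Finset β) (h : Disjoint P Q) (x : X) :
    cnt mem (P ∪ Q) x = cnt mem P x + cnt mem Q x := by
  unfold cnt
  rw [← Finset.sum_add_distrib]
  apply Finset.sum_congr rfl
  intro b _
  by_cases h1 : b ∈ P
  · have h2 : b ∉ Q := Finset.disjoint_left.mp h h1
    simp [h1, h2]
  · simp [h1]

lemma G_le_one (c : ℝ≥0) (hc : c ≤ 1) (S : Set X) : G mem c S ≤ 1 := by
  unfold G
  apply Finset.sup_le
  intro P _
  split_ifs
  · exact pow_le_one₀ zero_le hc
  · exact zero_le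

lemma le_G (c : ℝ≥0) (S : Set X) (P : Finset β) (hP : IsPart mem P S) :
    c ^ P.card ≤ G mem c S := by
  unfold G
  have := Finset.le_sup (f := fun P : Finset β => if IsPart mem P S then c ^ P.card else 0)
    (Finset.mem_univ P)
  simpa [hP] using this

/-- the generating function at `c * l` is at most `G c` times the one at `l`. -/
lemma F_mul_le (c l : ℝ≥0) (S : Set X) : F mem (c * l) S ≤ G mem c S * F mem l S := by
  unfold F
  rw [Finset.mul_sum]
  apply Finset.sum_le_sum
  intro P _
  split_ifs with h
  · rw [mul_pow]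
    exact mul_le_mul_left (le_G mem c S P h) _
  · simp

lemma G_sq_le (c : ℝ≥0) (S : Set X) : (G mem c S) ^ 2 ≤ F mem (c ^ 2) S := by
  obtain ⟨P, _, hP⟩ := Finset.exists_mem_eq_sup (Finset.univ : Finset (Finset β))
    Finset.univ_nonempty (fun P : Finset β => if IsPart mem P S then c ^ P.card else 0)
  unfold G
  rw [hP]
  by_cases h : IsPart mem P S
  · unfold F
    have := Finset.single_le_sum (f := fun P : Finset β => if IsPart mem P S then (c ^ 2) ^ P.card else 0)
      (fun _ _ => zero_le) (Finset.mem_univ P)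
    simp only [h, if_true] at this ⊢
    calc (c ^ P.card) ^ 2 = (c ^ 2) ^ P.card := by rw [← pow_mul, ← pow_mul, mul_comm]
      _ ≤ _ := this
  · simp [h]

/-- The key step: summing over packings. -/
lemma pack_sum_le (hne : ∀ b, ∃ x, mem b x) (l : ℝ≥0) (hgood : Good mem l) (S : Set X) :
    ∑ P : Finset β, (if IsPack mem P S then (l ^ 2 / 4) ^ P.card * (G mem (l / 2) (S \ cover mem P)) ^ 2
      else 0) ≤ G mem (l / 2) S := by
  have hc : (l / 2) ^ 2 = l ^ 2 / 4 := by
    rw [div_pow]; norm_num
  set μ : ℝ≥0 := l ^ 2 / 4 with hμ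
  -- first step: replace the square by a sum over partitions of the complement
  have step1 : ∑ P : Finset β, (if IsPack mem P S then μ ^ P.card * (G mem (l / 2) (S \ cover mem P)) ^ 2
      else 0) ≤ ∑ P : Finset β, ∑ T : Finset β,
        (if IsPack mem P S ∧ IsPart mem T (S \ cover mem P) then μ ^ P.card * μ ^ T.card else 0) := by
    apply Finset.sum_le_sum
    intro P _
    by_cases hP : IsPack mem P S
    · simp only [hP, if_true, true_and]
      have h1 := G_sq_le mem (l / 2) (S \ cover mem P)
      rw [hc] at h1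
      calc μ ^ P.card * (G mem (l / 2) (S \ cover mem P)) ^ 2
          ≤ μ ^ P.card * F mem μ (S \ cover mem P) := mul_le_mul_right h1 _
        _ = _ := by
          unfold F
          rw [Finset.mul_sum]
          apply Finset.sum_congr rfl
          intro T _
          split_ifs <;> simp
    · simp [hP]
  refine step1.trans ?_
  -- second step: inject (P,T) into (Q,P)
  have hdisj : ∀ P T : Finset β, IsPart mem T (S \ cover mem P) → Disjoint P T := by
    intro P T hT
    rw [Finset.disjoint_left]
    intro b hbP hbT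
    obtain ⟨x, hx⟩ := hne b
    have h1 : x ∈ cover mem P := ⟨b, hbP, hx⟩
    have h2 : x ∈ cover mem T := ⟨b, hbT, hx⟩
    have h3 := hT x
    rw [← cnt_pos_iff] at h2
    simp [h1] at h3
    omega
  have step2 : ∑ P : Finset β, ∑ T : Finset β,
        (if IsPack mem P S ∧ IsPart mem T (S \ cover mem P) then μ ^ P.card * μ ^ T.card else 0)
      ≤ ∑ Q : Finset β, ∑ P : Finset β, (if IsPart mem Q S ∧ P ⊆ Q then μ ^ Q.card else 0) := by
    rw [← Fintype.sum_prod_type', ← Fintype.sum_prod_type']
    apply sum_le_of_inj (fun p : Finset β × Finset β => ((p.1 ∪ p.2, p.1) : Finset β × Finset β))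
    · rintro ⟨P, T⟩ ⟨P', T'⟩ h1 h2 h3
      simp only [ne_eq, ite_eq_right_iff, Classical.not_imp, Prod.mk.injEq] at h1 h2 h3 ⊢
      obtain ⟨h3, rfl⟩ := h3
      refine ⟨rfl, ?_⟩
      have d1 := hdisj _ _ h1.1.2
      have d2 := hdisj _ _ h2.1.2
      ext b
      have h4 : b ∈ P ∪ T ↔ b ∈ P ∪ T' := by rw [h3]
      simp only [Finset.mem_union] at h4
      have e1 : b ∈ P → b ∉ T := fun hb => Finset.disjoint_left.mp d1 hb
      have e2 : b ∈ P → b ∉ T' := fun hb => Finset.disjoint_left.mp d2 hb
      tauto
    · rintro ⟨P, T⟩ h1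
      simp only [ne_eq, ite_eq_right_iff, Classical.not_imp] at h1
      obtain ⟨⟨hP, hT⟩, -⟩ := h1
      have d1 := hdisj _ _ hT
      have hQ : IsPart mem (P ∪ T) S := by
        intro x
        rw [cnt_union mem P T d1]
        have hp := hP x
        have ht := hT x
        by_cases hx : x ∈ cover mem P
        · have := (cnt_pos_iff mem P x).mpr hx
          simp only [Set.mem_sdiff, hx, not_true_eq_false, and_false, ind_false] at ht
          have := ind_le (x ∈ S)
          omega
        · have := (cnt_eq_zero_iff mem P x).mpr hx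
          simp only [Set.mem_sdiff, hx, not_false_eq_true, and_true] at ht
          rw [this, ht, zero_add]
      simp only [hP, hT, and_self, if_true, hQ, Finset.subset_union_left]
      rw [Finset.card_union_of_disjoint d1, pow_add]
  refine step2.trans ?_
  have step3 : ∑ Q : Finset β, ∑ P : Finset β, (if IsPart mem Q S ∧ P ⊆ Q then μ ^ Q.card else 0)
      = F mem (l / 2 * l) S := by
    unfold F
    apply Finset.sum_congr rfl
    intro Q _
    by_cases hQ : IsPart mem Q S
    · simp only [hQ, true_and, if_true]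
      rw [← Finset.sum_filter]
      have : (Finset.univ.filter (fun P : Finset β => P ⊆ Q)) = Q.powerset := by
        ext P; simp
      rw [this, Finset.sum_const, Finset.card_powerset, nsmul_eq_mul]
      push_cast
      rw [← mul_pow]
      congr 1
      rw [hμ, ← NNReal.coe_inj]
      push_cast
      ring
    · simp [hQ]
  rw [step3]
  refine (F_mul_le mem (l / 2) l S).trans ?_
  calc G mem (l / 2) S * F mem l S ≤ G mem (l / 2) S * 1 := mul_le_mul_right (hgood S) _
    _ = _ := mul_one _

end basic

/-! ### The dyadic tree -/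

/-- leaves of the binary tree of depth `k`. -/
def Leaf : ℕ → Type
  | 0 => Unit
  | (k+1) => Leaf k ⊕ Leaf k

/-- nodes of the binary tree of depth `k`. -/
def Node : ℕ → Type
  | 0 => Unit
  | (k+1) => Option (Node k ⊕ Node k)

noncomputable instance leafFintype : ∀ k, Fintype (Leaf k)
  | 0 => (inferInstance : Fintype Unit)
  | (k+1) => by
    haveI := leafFintype k
    exact (inferInstance : Fintype (Leaf k ⊕ Leaf k))

noncomputable instance nodeFintype : ∀ k, Fintype (Node k)
  | 0 => (inferInstance : Fintype Unit)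
  | (k+1) => by
    haveI := nodeFintype k
    exact (inferInstance : Fintype (Option (Node k ⊕ Node k)))

/-- the leaf `t` lies below the node `v`. -/
def nmem : ∀ k, Node k → Leaf k → Prop
  | 0, _, _ => True
  | (_+1), none, _ => True
  | (k+1), some (Sum.inl v), Sum.inl t => nmem k v t
  | (k+1), some (Sum.inr v), Sum.inr t => nmem k v t
  | (_+1), some (Sum.inl _), Sum.inr _ => False
  | (_+1), some (Sum.inr _), Sum.inl _ => False

/-- root node. -/
def root (k : ℕ) : Node (k+1) := (none : Option (Node k ⊕ Node k))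
/-- node of the left subtree. -/
def lft {k : ℕ} (v : Node k) : Node (k+1) := (some (Sum.inl v) : Option (Node k ⊕ Node k))
/-- node of the right subtree. -/
def rgt {k : ℕ} (v : Node k) : Node (k+1) := (some (Sum.inr v) : Option (Node k ⊕ Node k))
/-- leaf of the left subtree. -/
def lleaf {k : ℕ} (v : Leaf k) : Leaf (k+1) := (Sum.inl v : Leaf k ⊕ Leaf k)
/-- leaf of the right subtree. -/
def rleaf {k : ℕ} (v : Leaf k) : Leaf (k+1) := (Sum.inr v : Leaf k ⊕ Leaf k)

lemma node_cases {k : ℕ} (v : Node (k+1)) : v = root k ∨ (∃ w, v = lft w) ∨ (∃ w, v = rgt w) := by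
  match v with
  | none => exact Or.inl rfl
  | some (Sum.inl w) => exact Or.inr (Or.inl ⟨w, rfl⟩)
  | some (Sum.inr w) => exact Or.inr (Or.inr ⟨w, rfl⟩)

lemma leaf_cases {k : ℕ} (v : Leaf (k+1)) : (∃ w, v = lleaf w) ∨ (∃ w, v = rleaf w) := by
  match v with
  | Sum.inl w => exact Or.inl ⟨w, rfl⟩
  | Sum.inr w => exact Or.inr ⟨w, rfl⟩

@[simp] lemma nmem_root (k : ℕ) (t : Leaf (k+1)) : nmem (k+1) (root k) t := by
  simp [root, nmem]
@[simp] lemma nmem_lft_l {k : ℕ} (v : Node k) (t : Leaf k) :
    nmem (k+1) (lft v) (lleaf t) ↔ nmem k v t := by rfl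
@[simp] lemma nmem_rgt_r {k : ℕ} (v : Node k) (t : Leaf k) :
    nmem (k+1) (rgt v) (rleaf t) ↔ nmem k v t := by rfl
@[simp] lemma nmem_lft_r {k : ℕ} (v : Node k) (t : Leaf k) :
    ¬ nmem (k+1) (lft v) (rleaf t) := by intro h; exact h
@[simp] lemma nmem_rgt_l {k : ℕ} (v : Node k) (t : Leaf k) :
    ¬ nmem (k+1) (rgt v) (lleaf t) := by intro h; exact h

lemma leaf_card : ∀ k, Fintype.card (Leaf k) = 2 ^ k
  | 0 => rfl
  | (k+1) => by
    have : Fintype.card (Leaf (k+1)) = Fintype.card (Leaf k ⊕ Leaf k) := rfl
    rw [this, Fintype.card_sum, leaf_card k, pow_succ]; ring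

lemma leaf_nonempty (k : ℕ) : Nonempty (Leaf k) := by
  have : 0 < Fintype.card (Leaf k) := by rw [leaf_card]; positivity
  exact Fintype.card_pos_iff.mp this

lemma nmem_nonempty : ∀ k (v : Node k), ∃ t, nmem k v t
  | 0, _ => ⟨(), trivial⟩
  | (k+1), v => by
    rcases node_cases v with rfl | ⟨w, rfl⟩ | ⟨w, rfl⟩
    · obtain ⟨t⟩ := leaf_nonempty (k+1)
      exact ⟨t, nmem_root k t⟩
    · obtain ⟨t, ht⟩ := nmem_nonempty k w
      exact ⟨lleaf t, by simpa using ht⟩
    · obtain ⟨t, ht⟩ := nmem_nonempty k w
      exact ⟨rleaf t, by simpa using ht⟩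

/-- product of a box system with the tree of depth `k`. -/
def pmem {β X : Type*} (mem : β → X → Prop) (k : ℕ) : β × Node k → X × Leaf k → Prop :=
  fun b x => mem b.1 x.1 ∧ nmem k b.2 x.2

lemma sum_leaf_succ {M : Type*} [AddCommMonoid M] (k : ℕ) (f : Leaf (k+1) → M) :
    ∑ t, f t = ∑ t : Leaf k, f (lleaf t) + ∑ t : Leaf k, f (rleaf t) :=
  Fintype.sum_sum_type (α₁ := Leaf k) (α₂ := Leaf k) f

lemma sum_node_succ {M : Type*} [AddCommMonoid M] (k : ℕ) (f : Node (k+1) → M) :
    ∑ t, f t = f (root k) + (∑ t : Node k, f (lft t) + ∑ t : Node k, f (rgt t)) := by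
  have h1 : ∑ t, f t = f (root k) + ∑ s : Node k ⊕ Node k, f (some s) :=
    Fintype.sum_option (α := Node k ⊕ Node k) f
  rw [h1]
  congr 1
  exact Fintype.sum_sum_type (fun s => f (some s))

section split

variable {β X : Type*} [Fintype β] (mem : β → X → Prop) {k : ℕ}

/-- members of `Q` attached to the root. -/
noncomputable def topP (Q : Finset (β × Node (k+1))) : Finset β :=
  univ.filter (fun b => (b, root k) ∈ Q)

/-- members of `Q` attached to the left subtree. -/
noncomputable def leftP (Q : Finset (β × Node (k+1))) : Finset (β × Node k) :=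
  univ.filter (fun p => (p.1, lft p.2) ∈ Q)

/-- members of `Q` attached to the right subtree. -/
noncomputable def rightP (Q : Finset (β × Node (k+1))) : Finset (β × Node k) :=
  univ.filter (fun p => (p.1, rgt p.2) ∈ Q)

lemma split_inj (Q Q' : Finset (β × Node (k+1))) (h1 : topP Q = topP Q')
    (h2 : leftP Q = leftP Q') (h3 : rightP Q = rightP Q') : Q = Q' := by
  ext ⟨b, v⟩
  rcases node_cases v with rfl | ⟨w, rfl⟩ | ⟨w, rfl⟩
  · have : b ∈ topP Q ↔ b ∈ topP Q' := by rw [h1]
    simpa [topP] using this
  · have : (b, w) ∈ leftP Q ↔ (b, w) ∈ leftP Q' := by rw [h2]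
    simpa [leftP] using this
  · have : (b, w) ∈ rightP Q ↔ (b, w) ∈ rightP Q' := by rw [h3]
    simpa [rightP] using this

lemma card_eq_sum {α : Type*} [Fintype α] (Q : Finset α) : Q.card = ∑ a, ind (a ∈ Q) := by
  rw [← Finset.sum_subset (Finset.subset_univ Q) (fun a _ ha => ind_not ha),
    Finset.sum_congr rfl (fun a ha => ind_of ha)]
  simp

lemma card_split (Q : Finset (β × Node (k+1))) :
    Q.card = (topP Q).card + ((leftP Q).card + (rightP Q).card) := by
  rw [card_eq_sum Q, card_eq_sum (topP Q), card_eq_sum (leftP Q), card_eq_sum (rightP Q)]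
  simp only [Fintype.sum_prod_type, topP, leftP, rightP, Finset.mem_filter, Finset.mem_univ, true_and]
  rw [← Finset.sum_add_distrib, ← Finset.sum_add_distrib]
  apply Finset.sum_congr rfl
  intro b _
  rw [sum_node_succ]

lemma cnt_split_inl (Q : Finset (β × Node (k+1))) (x : X) (t : Leaf k) :
    cnt (pmem mem (k+1)) Q (x, lleaf t)
      = cnt mem (topP Q) x + cnt (pmem mem k) (leftP Q) (x, t) := by
  unfold cnt
  simp only [Fintype.sum_prod_type, topP, leftP, Finset.mem_filter, Finset.mem_univ, true_and]
  rw [← Finset.sum_add_distrib]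
  apply Finset.sum_congr rfl
  intro b _
  rw [sum_node_succ]
  simp only [pmem, nmem_root, and_true, nmem_lft_l, nmem_rgt_l, and_false, ind_false,
    Finset.sum_const_zero, add_zero]

lemma cnt_split_inr (Q : Finset (β × Node (k+1))) (x : X) (t : Leaf k) :
    cnt (pmem mem (k+1)) Q (x, rleaf t)
      = cnt mem (topP Q) x + cnt (pmem mem k) (rightP Q) (x, t) := by
  unfold cnt
  simp only [Fintype.sum_prod_type, topP, rightP, Finset.mem_filter, Finset.mem_univ, true_and]
  rw [← Finset.sum_add_distrib]
  apply Finset.sum_congr rfl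
  intro b _
  rw [sum_node_succ]
  simp only [pmem, nmem_root, and_true, nmem_rgt_r, nmem_lft_r, and_false, ind_false,
    Finset.sum_const_zero, zero_add]

end split

/-- slice of a region at a leaf. -/
def slice {X : Type*} {k : ℕ} (R : Set (X × Leaf k)) (t : Leaf k) : Set X := {x | (x, t) ∈ R}

/-- left half of a region with the set `C` removed. -/
def lhalf {X : Type*} {k : ℕ} (R : Set (X × Leaf (k+1))) (C : Set X) : Set (X × Leaf k) :=
  {p | (p.1, lleaf p.2) ∈ R ∧ p.1 ∉ C}

/-- right half of a region with the set `C` removed. -/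
def rhalf {X : Type*} {k : ℕ} (R : Set (X × Leaf (k+1))) (C : Set X) : Set (X × Leaf k) :=
  {p | (p.1, rleaf p.2) ∈ R ∧ p.1 ∉ C}

lemma avg_sq_le (k : ℕ) (h : Leaf k → ℝ≥0) :
    ((1/2 : ℝ≥0) ^ k * ∑ t, h t) ^ 2 ≤ (1/2 : ℝ≥0) ^ k * ∑ t, (h t) ^ 2 := by
  have h1 := sq_sum_le_card_mul_sum_sq (s := (Finset.univ : Finset (Leaf k))) (f := h)
  rw [Finset.card_univ, leaf_card] at h1
  calc ((1/2 : ℝ≥0) ^ k * ∑ t, h t) ^ 2 = ((1/2 : ℝ≥0) ^ k) ^ 2 * (∑ t, h t) ^ 2 := by ring
    _ ≤ ((1/2 : ℝ≥0) ^ k) ^ 2 * (((2 ^ k : ℕ) : ℝ≥0) * ∑ t, (h t) ^ 2) := mul_le_mul_right h1 _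
    _ = (1/2 : ℝ≥0) ^ k * ((((1/2 : ℝ≥0) ^ k) * 2 ^ k) * ∑ t, (h t) ^ 2) := by push_cast; ring
    _ = _ := by
      rw [← mul_pow]; norm_num

/-- the only leaf at depth zero. -/
def leaf0 : Leaf 0 := (() : Unit)
/-- the only node at depth zero. -/
def node0 : Node 0 := (() : Unit)

lemma node_zero (v : Node 0) : v = node0 := rfl

lemma sum_leaf_zero {M : Type*} [AddCommMonoid M] (f : Leaf 0 → M) :
    ∑ t, f t = f leaf0 :=
  Fintype.sum_unique (ι := Unit) f

lemma sum_node_zero {M : Type*} [AddCommMonoid M] (f : Node 0 → M) :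
    ∑ t, f t = f node0 :=
  Fintype.sum_unique (ι := Unit) f

lemma mem_image_fst {β : Type*} (P : Finset (β × Node 0)) (b : β) :
    b ∈ P.image Prod.fst ↔ (b, node0) ∈ P := by
  simp only [Finset.mem_image, Prod.exists, exists_and_right, exists_eq_right]
  constructor
  · rintro ⟨w, hw⟩; exact hw
  · intro h; exact ⟨_, h⟩

/-- main induction over the depth of the tree. -/
theorem main_ind {β X : Type*} [Fintype β] (mem : β → X → Prop) (μ : ℝ≥0) (g : Set X → ℝ≥0)
    (ha : ∀ S, F mem μ S ≤ g S)
    (hb : ∀ S, ∑ P : Finset β, (if IsPack mem P S then μ ^ P.card * (g (S \ cover mem P)) ^ 2 else 0)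
      ≤ g S) :
    ∀ (k : ℕ) (R : Set (X × Leaf k)),
      F (pmem mem k) μ R ≤ (1/2 : ℝ≥0) ^ k * ∑ t : Leaf k, g (slice R t) := by
  intro k
  induction k with
  | zero =>
    intro R
    have h0 : ∑ t : Leaf 0, g (slice R t) = g (slice R leaf0) := sum_leaf_zero _
    rw [h0, pow_zero, one_mul]
    refine le_trans ?_ (ha _)
    unfold F
    apply sum_le_of_inj (fun P : Finset (β × Node 0) => P.image Prod.fst)
    · intro P P' _ _ h3
      ext ⟨b, v⟩
      have : b ∈ P.image Prod.fst ↔ b ∈ P'.image Prod.fst := by rw [h3]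
      simp only [mem_image_fst] at this
      rw [node_zero v]
      exact this
    · intro P h1
      simp only [ne_eq, ite_eq_right_iff, Classical.not_imp] at h1
      obtain ⟨hP, -⟩ := h1
      have hinj : Set.InjOn (Prod.fst : β × Node 0 → β) P := by
        rintro ⟨a, v⟩ _ ⟨b, w⟩ _ hab
        rw [node_zero v, node_zero w]
        simp only at hab
        rw [hab]
      have hcard : (P.image Prod.fst).card = P.card := Finset.card_image_of_injOn hinj
      have hpart : IsPart mem (P.image Prod.fst) (slice R leaf0) := by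
        intro x
        have := hP (x, leaf0)
        have e : cnt mem (P.image Prod.fst) x = cnt (pmem mem 0) P (x, leaf0) := by
          unfold cnt
          rw [Fintype.sum_prod_type]
          apply Finset.sum_congr rfl
          intro b _
          rw [sum_node_zero]
          have e4 : pmem mem 0 (b, node0) (x, leaf0) ↔ mem b x := by
            simp [pmem, nmem]
          simp only [mem_image_fst, e4]
        rw [e, this]
        rfl
      rw [if_pos hP, if_pos hpart, hcard]
  | succ k ih =>
    intro R
    -- split the sum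
    have step1 : F (pmem mem (k+1)) μ R ≤ ∑ P : Finset β,
        (if ∀ t, IsPack mem P (slice R t) then
          μ ^ P.card * (F (pmem mem k) μ (lhalf R (cover mem P)) * F (pmem mem k) μ (rhalf R (cover mem P)))
          else 0) := by
      have e : ∀ P : Finset β, (if ∀ t, IsPack mem P (slice R t) then
          μ ^ P.card * (F (pmem mem k) μ (lhalf R (cover mem P)) * F (pmem mem k) μ (rhalf R (cover mem P)))
          else 0) = ∑ Q0 : Finset (β × Node k), ∑ Q1 : Finset (β × Node k),
            (if (∀ t, IsPack mem P (slice R t)) ∧ IsPart (pmem mem k) Q0 (lhalf R (cover mem P)) ∧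
              IsPart (pmem mem k) Q1 (rhalf R (cover mem P)) then μ ^ P.card * (μ ^ Q0.card * μ ^ Q1.card)
              else 0) := by
        intro P
        by_cases hP : ∀ t, IsPack mem P (slice R t)
        · simp only [hP, implies_true, if_true, true_and]
          unfold F
          rw [Finset.sum_mul_sum, Finset.mul_sum]
          apply Finset.sum_congr rfl
          intro Q0 _
          rw [Finset.mul_sum]
          apply Finset.sum_congr rfl
          intro Q1 _
          by_cases h0 : IsPart (pmem mem k) Q0 (lhalf R (cover mem P)) <;>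
          by_cases h1 : IsPart (pmem mem k) Q1 (rhalf R (cover mem P)) <;>
          simp [h0, h1]
        · simp [hP]
      simp only [e]
      have e5 : ∀ f : Finset β → Finset (β × Node k) → Finset (β × Node k) → ℝ≥0,
          ∑ P, ∑ Q0, ∑ Q1, f P Q0 Q1 = ∑ c : Finset β × Finset (β × Node k) × Finset (β × Node k),
            f c.1 c.2.1 c.2.2 := by
        intro f
        rw [Fintype.sum_prod_type]
        apply Finset.sum_congr rfl
        intro P _
        rw [Fintype.sum_prod_type]
      rw [e5]
      unfold F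
      apply sum_le_of_inj (fun Q : Finset (β × Node (k+1)) => (topP Q, leftP Q, rightP Q))
      · intro Q Q' _ _ h
        simp only [Prod.mk.injEq] at h
        exact split_inj Q Q' h.1 h.2.1 h.2.2
      · intro Q hQ
        simp only [ne_eq, ite_eq_right_iff, Classical.not_imp] at hQ
        obtain ⟨hQ, -⟩ := hQ
        have hl : ∀ x t, cnt mem (topP Q) x + cnt (pmem mem k) (leftP Q) (x, t)
            = ind ((x, lleaf t) ∈ R) := by
          intro x t
          rw [← cnt_split_inl]; exact hQ _
        have hr : ∀ x t, cnt mem (topP Q) x + cnt (pmem mem k) (rightP Q) (x, t)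
            = ind ((x, rleaf t) ∈ R) := by
          intro x t
          rw [← cnt_split_inr]; exact hQ _
        have c1 : ∀ t, IsPack mem (topP Q) (slice R t) := by
          intro t x
          rcases leaf_cases t with ⟨w, rfl⟩ | ⟨w, rfl⟩
          · have := hl x w
            simp only [slice, Set.mem_ofPred_eq]
            omega
          · have := hr x w
            simp only [slice, Set.mem_ofPred_eq]
            omega
        have c2 : IsPart (pmem mem k) (leftP Q) (lhalf R (cover mem (topP Q))) := by
          rintro ⟨x, t⟩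
          have h := hl x t
          by_cases hx : x ∈ cover mem (topP Q)
          · have := (cnt_pos_iff mem (topP Q) x).mpr hx
            simp only [lhalf, Set.mem_ofPred_eq, hx, not_true_eq_false, and_false, ind_false]
            have := ind_le ((x, lleaf t) ∈ R)
            omega
          · have := (cnt_eq_zero_iff mem (topP Q) x).mpr hx
            simp only [lhalf, Set.mem_ofPred_eq, hx, not_false_eq_true, and_true]
            omega
        have c3 : IsPart (pmem mem k) (rightP Q) (rhalf R (cover mem (topP Q))) := by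
          rintro ⟨x, t⟩
          have h := hr x t
          by_cases hx : x ∈ cover mem (topP Q)
          · have := (cnt_pos_iff mem (topP Q) x).mpr hx
            simp only [rhalf, Set.mem_ofPred_eq, hx, not_true_eq_false, and_false, ind_false]
            have := ind_le ((x, rleaf t) ∈ R)
            omega
          · have := (cnt_eq_zero_iff mem (topP Q) x).mpr hx
            simp only [rhalf, Set.mem_ofPred_eq, hx, not_false_eq_true, and_true]
            omega
        simp only [hQ, if_true, c1, c2, c3, implies_true, and_self]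
        rw [card_split, pow_add, pow_add]
    refine step1.trans ?_
    -- apply the induction hypothesis, AM-GM and Jensen
    have step2 : ∀ P : Finset β, (if ∀ t, IsPack mem P (slice R t) then
          μ ^ P.card * (F (pmem mem k) μ (lhalf R (cover mem P)) * F (pmem mem k) μ (rhalf R (cover mem P)))
          else 0) ≤ (1/2 : ℝ≥0) ^ (k+1) * ∑ t : Leaf (k+1),
            (if IsPack mem P (slice R t) then μ ^ P.card * (g (slice R t \ cover mem P)) ^ 2 else 0) := by
      intro P
      by_cases hP : ∀ t, IsPack mem P (slice R t)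
      · simp only [hP, implies_true, if_true]
        rw [← Finset.mul_sum]
        have hL := ih (lhalf R (cover mem P))
        have hR := ih (rhalf R (cover mem P))
        set a := F (pmem mem k) μ (lhalf R (cover mem P)) with ha'
        set b := F (pmem mem k) μ (rhalf R (cover mem P)) with hb'
        have eL : ∀ t : Leaf k, slice (lhalf R (cover mem P)) t = slice R (lleaf t) \ cover mem P := by
          intro t; ext x; simp [slice, lhalf]
        have eR : ∀ t : Leaf k, slice (rhalf R (cover mem P)) t = slice R (rleaf t) \ cover mem P := by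
          intro t; ext x; simp [slice, rhalf]
        simp only [eL] at hL
        simp only [eR] at hR
        have sqL := (pow_le_pow_left₀ (zero_le) hL 2).trans (avg_sq_le k _)
        have sqR := (pow_le_pow_left₀ (zero_le) hR 2).trans (avg_sq_le k _)
        have amgm : a * b ≤ (1/2) * (a ^ 2 + b ^ 2) := by
          have := two_mul_le_add_sq a b
          calc a * b = (1/2) * (2 * a * b) := by
                rw [mul_assoc 2 a b, ← mul_assoc (1/2 : ℝ≥0) 2]; norm_num
            _ ≤ _ := mul_le_mul_right this _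
        rw [sum_leaf_succ]
        calc μ ^ P.card * (a * b) ≤ μ ^ P.card * ((1/2) * (a ^ 2 + b ^ 2)) := mul_le_mul_right amgm _
          _ ≤ μ ^ P.card * ((1/2) * ((1/2 : ℝ≥0) ^ k * ∑ t : Leaf k, (g (slice R (lleaf t) \ cover mem P)) ^ 2
              + (1/2 : ℝ≥0) ^ k * ∑ t : Leaf k, (g (slice R (rleaf t) \ cover mem P)) ^ 2)) := by
              gcongr
          _ = _ := by ring
      · rw [if_neg hP]; exact zero_le
    calc _ ≤ ∑ P : Finset β, ((1/2 : ℝ≥0) ^ (k+1) * ∑ t : Leaf (k+1),
            (if IsPack mem P (slice R t) then μ ^ P.card * (g (slice R t \ cover mem P)) ^ 2 else 0)) :=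
          Finset.sum_le_sum (fun P _ => step2 P)
      _ = (1/2 : ℝ≥0) ^ (k+1) * ∑ t : Leaf (k+1), ∑ P : Finset β,
            (if IsPack mem P (slice R t) then μ ^ P.card * (g (slice R t \ cover mem P)) ^ 2 else 0) := by
          rw [← Finset.mul_sum, Finset.sum_comm]
      _ ≤ _ := by
          gcongr with t _
          exact hb _

/-- one more dimension: the product system is good for `l ^ 2 / 4`. -/
theorem good_pmem {β X : Type*} [Fintype β] (mem : β → X → Prop)
    (hne : ∀ b, ∃ x, mem b x) (l : ℝ≥0) (hl : l ≤ 1) (hgood : Good mem l) (k : ℕ) :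
    Good (pmem mem k) (l ^ 2 / 4) := by
  intro R
  have hG : G mem (l / 2) = G mem (l / 2) := rfl
  have hl2 : l / 2 ≤ 1 := by
    refine le_trans ?_ hl
    exact div_le_self zero_le (by norm_num)
  refine (main_ind mem (l ^ 2 / 4) (G mem (l / 2)) ?_ (pack_sum_le mem hne l hgood) k R).trans ?_
  · intro S
    have h1 : l ^ 2 / 4 = (l / 4) * l := by rw [sq, mul_div_right_comm]
    rw [h1]
    refine (F_mul_le mem (l / 4) l S).trans ?_
    calc G mem (l / 4) S * F mem l S ≤ G mem (l / 4) S * 1 := mul_le_mul_right (hgood S) _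
      _ = G mem (l / 4) S := mul_one _
      _ ≤ G mem (l / 2) S := by
        unfold G
        apply Finset.sup_mono_fun
        intro P _
        split_ifs
        · apply pow_le_pow_left₀ zero_le
          gcongr
          norm_num
        · exact le_rfl
  · calc (1/2 : ℝ≥0) ^ k * ∑ t : Leaf k, G mem (l / 2) (slice R t)
        ≤ (1/2 : ℝ≥0) ^ k * ∑ t : Leaf k, 1 := by
          gcongr with t _
          exact G_le_one mem _ hl2 _
      _ = 1 := by
        rw [Finset.sum_const, Finset.card_univ, leaf_card, nsmul_eq_mul, mul_one]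
        push_cast
        rw [← mul_pow]; norm_num

lemma pmem_nonempty {β X : Type*} (mem : β → X → Prop) (hne : ∀ b, ∃ x, mem b x) (k : ℕ) :
    ∀ b, ∃ x, pmem mem k b x := by
  rintro ⟨b, v⟩
  obtain ⟨x, hx⟩ := hne b
  obtain ⟨t, ht⟩ := nmem_nonempty k v
  exact ⟨(x, t), hx, ht⟩

end Pool.Agent.H27.Dyadic
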