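import Mathlib
import Pool.Agent.H27.DyadicAbs

set_option autoImplicit false
open Classical

/-! Transfer to boxes given by functions, and to real dyadic tiles. -/

namespace Pool.Agent.H27.Dyadic

open Finset NNReal

lemma good_transfer {β X β' X' : Type*} [Fintype β] [Fintype β'] (mem : β → X → Prop)
    (mem' : β' → X' → Prop) (e : β' ≃ β) (f : X' ≃ X) (h : ∀ b x, mem' b x ↔ mem (e b) (f x))
    (l : ℝ≥0) (hg : Good mem l) : Good mem' l := by
  intro S
  refine le_trans ?_ (hg (f '' S))
  unfold F
  apply sum_le_of_inj (fun P : Finset β' => P.map e.toEmbedding)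
  · intro P P' _ _ h3
    exact Finset.map_injective _ h3
  · intro P h1
    simp only [ne_eq, ite_eq_right_iff, Classical.not_imp] at h1
    obtain ⟨hP, -⟩ := h1
    have hpart : IsPart mem (P.map e.toEmbedding) (f '' S) := by
      intro x
      obtain ⟨x', rfl⟩ := f.surjective x
      have h2 := hP x'
      have e1 : cnt mem (P.map e.toEmbedding) (f x') = cnt mem' P x' := by
        unfold cnt
        rw [← Equiv.sum_comp e]
        apply Finset.sum_congr rfl
        intro b _
        simp [h]
      rw [e1, h2]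
      simp
    rw [if_pos hP, if_pos hpart, Finset.card_map]

/-- membership for product boxes. -/
def fmem (n m : ℕ) : (Fin m → Node n) → (Fin m → Leaf n) → Prop :=
  fun b x => ∀ k, nmem n (b k) (x k)

/-- the constants. -/
noncomputable def lam : ℕ → ℝ≥0
  | 0 => 1
  | (m+1) => (lam m) ^ 2 / 4

lemma lam_pos : ∀ m, 0 < lam m
  | 0 => by simp [lam]
  | (m+1) => by
    have := lam_pos m
    simp only [lam]; positivity

lemma lam_le_one : ∀ m, lam m ≤ 1
  | 0 => by simp [lam]
  | (m+1) => by
    have := lam_le_one m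
    simp only [lam]
    calc (lam m) ^ 2 / 4 ≤ 1 ^ 2 / 4 := by gcongr
      _ ≤ 1 := by
        rw [← NNReal.coe_le_coe]; push_cast; norm_num

lemma fmem_nonempty (n m : ℕ) : ∀ b, ∃ x, fmem n m b x := by
  intro b
  choose x hx using fun k => nmem_nonempty n (b k)
  exact ⟨x, hx⟩

lemma good_fmem (n : ℕ) : ∀ m, Good (fmem n m) (lam m)
  | 0 => by
    intro S
    unfold F
    have key : ∀ P Q : Finset (Fin 0 → Node n), IsPart (fmem n 0) P S → IsPart (fmem n 0) Q S → P = Q := by
      intro P Q hP hQ
      ext b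
      have h1 := hP (fun k => k.elim0)
      have h2 := hQ (fun k => k.elim0)
      have e : ∀ P : Finset (Fin 0 → Node n), cnt (fmem n 0) P (fun k => k.elim0) = ind (b ∈ P) := by
        intro P
        unfold cnt
        rw [Fintype.sum_unique]
        have : (default : Fin 0 → Node n) = b := Subsingleton.elim _ _
        rw [this]
        congr 1
        simp [fmem]
      rw [e] at h1 h2
      rw [← ind_pos (p := b ∈ P), ← ind_pos (p := b ∈ Q), h1, h2]
    by_cases hex : ∃ P : Finset (Fin 0 → Node n), IsPart (fmem n 0) P S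
    · obtain ⟨P0, hP0⟩ := hex
      rw [Finset.sum_eq_single P0]
      · rw [if_pos hP0]; simp [lam]
      · intro P _ hne
        rw [if_neg]
        intro hP
        exact hne (key P P0 hP hP0)
      · intro h; exact absurd (Finset.mem_univ _) h
    · push Not at hex
      rw [Finset.sum_eq_zero]
      · exact zero_le
      · intro P _
        rw [if_neg (hex P)]
  | (m+1) => by
    have ih := good_fmem n m
    have h1 := good_pmem (fmem n m) (fmem_nonempty n m) (lam m) (lam_le_one m) ih n
    refine good_transfer (pmem (fmem n m) n) (fmem n (m+1))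
      ((Fin.snocEquiv (fun _ => Node n)).symm.trans (Equiv.prodComm _ _))
      ((Fin.snocEquiv (fun _ => Leaf n)).symm.trans (Equiv.prodComm _ _)) ?_ _ h1
    intro b x
    simp only [fmem, pmem, Equiv.trans_apply, Equiv.prodComm_apply]
    rw [Fin.forall_fin_succ']
    rfl

/-- the generating function of partitions of the whole cube is small. -/
lemma F_univ_le (n m : ℕ) (c : ℝ≥0) (hc : c ≤ 1) : F (fmem n m) (c * lam m) Set.univ ≤ c := by
  refine (F_mul_le (fmem n m) c (lam m) Set.univ).trans ?_
  have h1 : G (fmem n m) c Set.univ ≤ c := by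
    unfold G
    apply Finset.sup_le
    intro P _
    split_ifs with hP
    · have hne : P.card ≠ 0 := by
        intro h0
        rw [Finset.card_eq_zero] at h0
        subst h0
        have := leaf_nonempty n
        have h2 := hP (fun _ => Classical.arbitrary _)
        simp [cnt] at h2
      calc c ^ P.card ≤ c ^ 1 := pow_le_pow_of_le_one zero_le hc (Nat.one_le_iff_ne_zero.mpr hne)
        _ = c := pow_one c
    · exact zero_le
  calc G (fmem n m) c Set.univ * F (fmem n m) (lam m) Set.univ ≤ c * 1 :=
        mul_le_mul' h1 (good_fmem n m _)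
    _ = c := mul_one c

/-! ### dyadic intervals as nodes -/

/-- node of the interval `[a/2^i,(a+1)/2^i]`. -/
noncomputable def nodeOf : ∀ k, ℕ → ℕ → Node k
  | 0, _, _ => node0
  | (k+1), 0, _ => root k
  | (k+1), (i+1), a => if a < 2 ^ i then lft (nodeOf k i a) else rgt (nodeOf k i (a - 2 ^ i))

/-- midpoint of a leaf interval. -/
noncomputable def pos : ∀ k, Leaf k → ℝ
  | 0, _ => 1/2
  | (k+1), Sum.inl t => pos k t / 2
  | (k+1), Sum.inr t => (1 + pos k t) / 2

lemma pos_lleaf {k : ℕ} (t : Leaf k) : pos (k+1) (lleaf t) = pos k t / 2 := rfl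
lemma pos_rleaf {k : ℕ} (t : Leaf k) : pos (k+1) (rleaf t) = (1 + pos k t) / 2 := rfl

lemma pos_mem : ∀ k (t : Leaf k), 0 < pos k t ∧ pos k t < 1
  | 0, t => by
    have : pos 0 t = 1/2 := rfl
    rw [this]; norm_num
  | (k+1), t => by
    rcases leaf_cases t with ⟨w, rfl⟩ | ⟨w, rfl⟩
    · have := pos_mem k w
      rw [pos_lleaf]; constructor <;> linarith
    · have := pos_mem k w
      rw [pos_rleaf]; constructor <;> linarith

lemma nmem_open : ∀ (k i a : ℕ) (t : Leaf k), i ≤ k → a < 2 ^ i → nmem k (nodeOf k i a) t →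
    (a : ℝ) / 2 ^ i < pos k t ∧ pos k t < ((a : ℝ) + 1) / 2 ^ i
  | 0, i, a, t, hi, ha, _ => by
    have : i = 0 := by omega
    subst this
    have : a = 0 := by simpa using ha
    subst this
    have := pos_mem 0 t
    simpa using this
  | (k+1), 0, a, t, _, ha, _ => by
    have : a = 0 := by simpa using ha
    subst this
    have := pos_mem (k+1) t
    simpa using this
  | (k+1), (i+1), a, t, hi, ha, h => by
    have h2 : (0:ℝ) < 2 ^ i := by positivity
    by_cases hai : a < 2 ^ i
    · have e : nodeOf (k+1) (i+1) a = lft (nodeOf k i a) := by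
        simp [nodeOf, hai]
      rw [e] at h
      rcases leaf_cases t with ⟨w, rfl⟩ | ⟨w, rfl⟩
      · rw [nmem_lft_l] at h
        have := nmem_open k i a w (by omega) hai h
        rw [pos_lleaf, pow_succ]
        rw [div_lt_iff₀ h2, lt_div_iff₀ h2] at this
        rw [div_lt_iff₀ (by positivity), lt_div_iff₀ (by positivity)]
        constructor <;> linarith
      · exact absurd h (nmem_lft_r _ _)
    · have e : nodeOf (k+1) (i+1) a = rgt (nodeOf k i (a - 2 ^ i)) := by
        simp [nodeOf, hai]
      rw [e] at h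
      push Not at hai
      rcases leaf_cases t with ⟨w, rfl⟩ | ⟨w, rfl⟩
      · exact absurd h (nmem_rgt_l _ _)
      · rw [nmem_rgt_r] at h
        have ha' : a - 2 ^ i < 2 ^ i := by rw [pow_succ] at ha; omega
        have := nmem_open k i (a - 2 ^ i) w (by omega) ha' h
        rw [pos_rleaf, pow_succ]
        rw [Nat.cast_sub hai] at this
        push_cast at this
        rw [div_lt_iff₀ h2, lt_div_iff₀ h2] at this
        rw [div_lt_iff₀ (by positivity), lt_div_iff₀ (by positivity)]
        constructor <;> linarith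

lemma nmem_closed : ∀ (k i a : ℕ) (t : Leaf k), i ≤ k → a < 2 ^ i →
    (a : ℝ) / 2 ^ i ≤ pos k t → pos k t ≤ ((a : ℝ) + 1) / 2 ^ i → nmem k (nodeOf k i a) t
  | 0, i, a, t, hi, ha, _, _ => by
    trivial
  | (k+1), 0, a, t, _, ha, _, _ => by
    have e : nodeOf (k+1) 0 a = root k := rfl
    rw [e]; exact nmem_root k t
  | (k+1), (i+1), a, t, hi, ha, h1, h3 => by
    have h2 : (0:ℝ) < 2 ^ i := by positivity
    rw [pow_succ] at h1 h3
    rw [div_le_iff₀ (by positivity)] at h1
    rw [le_div_iff₀ (by positivity)] at h3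
    by_cases hai : a < 2 ^ i
    · have e : nodeOf (k+1) (i+1) a = lft (nodeOf k i a) := by
        simp [nodeOf, hai]
      rw [e]
      rcases leaf_cases t with ⟨w, rfl⟩ | ⟨w, rfl⟩
      · rw [nmem_lft_l]
        rw [pos_lleaf] at h1 h3
        apply nmem_closed k i a w (by omega) hai
        · rw [div_le_iff₀ h2]; linarith
        · rw [le_div_iff₀ h2]; linarith
      · exfalso
        rw [pos_rleaf] at h3
        have := (pos_mem k w).1
        have h4 : (a : ℝ) + 1 ≤ 2 ^ i := by exact_mod_cast hai
        nlinarith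
    · have e : nodeOf (k+1) (i+1) a = rgt (nodeOf k i (a - 2 ^ i)) := by
        simp [nodeOf, hai]
      rw [e]
      push Not at hai
      rcases leaf_cases t with ⟨w, rfl⟩ | ⟨w, rfl⟩
      · exfalso
        rw [pos_lleaf] at h1
        have := (pos_mem k w).2
        have h4 : (2:ℝ) ^ i ≤ a := by exact_mod_cast hai
        nlinarith
      · rw [nmem_rgt_r]
        have ha' : a - 2 ^ i < 2 ^ i := by rw [pow_succ] at ha; omega
        rw [pos_rleaf] at h1 h3
        apply nmem_closed k i (a - 2 ^ i) w (by omega) ha'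
        · rw [div_le_iff₀ h2, Nat.cast_sub hai]; push_cast; linarith
        · rw [le_div_iff₀ h2, Nat.cast_sub hai]; push_cast; linarith

lemma lft_inj {k : ℕ} {v w : Node k} (h : lft v = lft w) : v = w := by
  unfold lft at h
  exact Sum.inl.inj (Option.some.inj h)

lemma rgt_inj {k : ℕ} {v w : Node k} (h : rgt v = rgt w) : v = w := by
  unfold rgt at h
  exact Sum.inr.inj (Option.some.inj h)

lemma root_ne_lft {k : ℕ} (v : Node k) : root k ≠ lft v := by
  intro h
  have : (none : Option (Node k ⊕ Node k)) = some (Sum.inl v) := h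
  simp at this

lemma root_ne_rgt {k : ℕ} (v : Node k) : root k ≠ rgt v := by
  intro h
  have : (none : Option (Node k ⊕ Node k)) = some (Sum.inr v) := h
  simp at this

lemma lft_ne_rgt {k : ℕ} (v w : Node k) : lft v ≠ rgt w := by
  intro h
  have : (some (Sum.inl v) : Option (Node k ⊕ Node k)) = some (Sum.inr w) := h
  simp at this

lemma nodeOf_inj : ∀ (k i a i' a' : ℕ), i ≤ k → a < 2 ^ i → i' ≤ k → a' < 2 ^ i' →
    nodeOf k i a = nodeOf k i' a' → i = i' ∧ a = a'
  | 0, i, a, i', a', hi, ha, hi', ha', _ => by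
    have h1 : i = 0 := by omega
    have h2 : i' = 0 := by omega
    subst h1; subst h2
    simp at ha ha'
    omega
  | (k+1), 0, a, 0, a', hi, ha, hi', ha', _ => by
    simp at ha ha'
    omega
  | (k+1), (i+1), a, 0, a', hi, ha, hi', ha', h => by
    exfalso
    by_cases hai : a < 2 ^ i
    · have e : nodeOf (k+1) (i+1) a = lft (nodeOf k i a) := by
        simp [nodeOf, hai]
      rw [e] at h
      exact root_ne_lft _ h.symm
    · have e : nodeOf (k+1) (i+1) a = rgt (nodeOf k i (a - 2 ^ i)) := by
        simp [nodeOf, hai]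
      rw [e] at h
      exact root_ne_rgt _ h.symm
  | (k+1), 0, a, (i'+1), a', hi, ha, hi', ha', h => by
    exfalso
    by_cases hai : a' < 2 ^ i'
    · have e : nodeOf (k+1) (i'+1) a' = lft (nodeOf k i' a') := by
        simp [nodeOf, hai]
      rw [e] at h
      exact root_ne_lft _ h
    · have e : nodeOf (k+1) (i'+1) a' = rgt (nodeOf k i' (a' - 2 ^ i')) := by
        simp [nodeOf, hai]
      rw [e] at h
      exact root_ne_rgt _ h
  | (k+1), (i+1), a, (i'+1), a', hi, ha, hi', ha', h => by
    by_cases hai : a < 2 ^ i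
    · have e : nodeOf (k+1) (i+1) a = lft (nodeOf k i a) := by
        simp [nodeOf, hai]
      by_cases hai' : a' < 2 ^ i'
      · have e' : nodeOf (k+1) (i'+1) a' = lft (nodeOf k i' a') := by
          simp [nodeOf, hai']
        rw [e, e'] at h
        have := nodeOf_inj k i a i' a' (by omega) hai (by omega) hai' (lft_inj h)
        omega
      · have e' : nodeOf (k+1) (i'+1) a' = rgt (nodeOf k i' (a' - 2 ^ i')) := by
          simp [nodeOf, hai']
        rw [e, e'] at h
        exact absurd h (lft_ne_rgt _ _)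
    · have e : nodeOf (k+1) (i+1) a = rgt (nodeOf k i (a - 2 ^ i)) := by
        simp [nodeOf, hai]
      by_cases hai' : a' < 2 ^ i'
      · have e' : nodeOf (k+1) (i'+1) a' = lft (nodeOf k i' a') := by
          simp [nodeOf, hai']
        rw [e, e'] at h
        exact absurd h.symm (lft_ne_rgt _ _)
      · have e' : nodeOf (k+1) (i'+1) a' = rgt (nodeOf k i' (a' - 2 ^ i')) := by
          simp [nodeOf, hai']
        rw [e, e'] at h
        push Not at hai hai'
        have h1 : a - 2 ^ i < 2 ^ i := by rw [pow_succ] at ha; omega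
        have h2 : a' - 2 ^ i' < 2 ^ i' := by rw [pow_succ] at ha'; omega
        have := nodeOf_inj k i (a - 2 ^ i) i' (a' - 2 ^ i') (by omega) h1 (by omega) h2 (rgt_inj h)
        obtain ⟨h3, h4⟩ := this
        subst h3
        omega

/-! ### tiles -/

/-- tile set. -/
def tset {d n : ℕ} (x : (Fin d → Fin (n + 1)) × (Fin d → Fin (2 ^ n))) : Set (Fin d → ℝ) :=
  Set.pi Set.univ (fun k => Set.Icc (((x.2 k : ℕ) : ℝ) / 2 ^ (x.1 k : ℕ))
                    ((((x.2 k : ℕ) : ℝ) + 1) / 2 ^ (x.1 k : ℕ)))

/-- order `n` tiles. -/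
noncomputable def tiles (d n : ℕ) : Finset ((Fin d → Fin (n + 1)) × (Fin d → Fin (2 ^ n))) :=
  (Finset.univ : Finset ((Fin d → Fin (n + 1)) × (Fin d → Fin (2 ^ n)))).filter
                (fun x => ∑ k, (x.1 k : ℕ) = n ∧ ∀ k, (x.2 k : ℕ) < 2 ^ (x.1 k : ℕ))

/-- geometric tiling. -/
def IsTiling {d n : ℕ} (S : Finset ((Fin d → Fin (n + 1)) × (Fin d → Fin (2 ^ n)))) : Prop :=
  (⋃ x ∈ S, tset x) = Set.Icc (0 : Fin d → ℝ) 1 ∧
    ∀ x ∈ S, ∀ y ∈ S, x ≠ y → Disjoint (interior (tset x)) (interior (tset y))

/-- label of the shadow of a tile. -/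
noncomputable def lab {m n : ℕ} (x : (Fin (m+1) → Fin (n + 1)) × (Fin (m+1) → Fin (2 ^ n))) :
    Fin m → Node n :=
  fun k => nodeOf n (x.1 k.castSucc) (x.2 k.castSucc)

/-- the test point above a cell. -/
noncomputable def tpt {m n : ℕ} (c : Fin m → Leaf n) : Fin (m+1) → ℝ :=
  Fin.snoc (α := fun _ => ℝ) (fun k => pos n (c k)) (1 / 2 ^ (n+1))

lemma tpt_castSucc {m n : ℕ} (c : Fin m → Leaf n) (k : Fin m) : tpt c k.castSucc = pos n (c k) := by
  simp [tpt]

lemma tpt_last {m n : ℕ} (c : Fin m → Leaf n) : tpt c (Fin.last m) = 1 / 2 ^ (n+1) := by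
  simp [tpt]

lemma tpt_mem {m n : ℕ} (c : Fin m → Leaf n) : tpt c ∈ Set.Icc (0 : Fin (m+1) → ℝ) 1 := by
  constructor
  · intro k
    refine Fin.lastCases ?_ (fun k => ?_) k
    · rw [tpt_last]; simp only [Pi.zero_apply]; positivity
    · rw [tpt_castSucc]; exact (pos_mem n (c k)).1.le
  · intro k
    refine Fin.lastCases ?_ (fun k => ?_) k
    · rw [tpt_last]
      simp only [Pi.one_apply]
      rw [div_le_one (by positivity)]
      exact one_le_pow₀ (by norm_num)
    · rw [tpt_castSucc]; exact (pos_mem n (c k)).2.le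

/-- face partitions. -/
def IsFace {m n : ℕ} (U : Finset ((Fin (m+1) → Fin (n + 1)) × (Fin (m+1) → Fin (2 ^ n)))) : Prop :=
  (∀ x ∈ U, (x.2 (Fin.last m) : ℕ) = 0) ∧ IsPart (fmem n m) (U.image lab) Set.univ

lemma le_n {m n : ℕ} (x : (Fin (m+1) → Fin (n + 1)) × (Fin (m+1) → Fin (2 ^ n))) (k : Fin (m+1)) :
    (x.1 k : ℕ) ≤ n := by
  have := (x.1 k).2; omega

lemma lab_inj {m n : ℕ} (x y : (Fin (m+1) → Fin (n + 1)) × (Fin (m+1) → Fin (2 ^ n)))
    (hx : x ∈ tiles (m+1) n) (hy : y ∈ tiles (m+1) n)
    (hx0 : (x.2 (Fin.last m) : ℕ) = 0) (hy0 : (y.2 (Fin.last m) : ℕ) = 0) (h : lab x = lab y) :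
    x = y := by
  simp only [tiles, Finset.mem_filter, Finset.mem_univ, true_and] at hx hy
  have h1 : ∀ k : Fin m, (x.1 k.castSucc : ℕ) = y.1 k.castSucc ∧ (x.2 k.castSucc : ℕ) = y.2 k.castSucc := by
    intro k
    exact nodeOf_inj n _ _ _ _ (le_n x _) (hx.2 _) (le_n y _) (hy.2 _) (congrFun h k)
  have hs1 := hx.1
  have hs2 := hy.1
  rw [Fin.sum_univ_castSucc] at hs1 hs2
  have h2 : (x.1 (Fin.last m) : ℕ) = y.1 (Fin.last m) := by
    have : ∑ k : Fin m, (x.1 k.castSucc : ℕ) = ∑ k : Fin m, (y.1 k.castSucc : ℕ) :=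
      Finset.sum_congr rfl (fun k _ => (h1 k).1)
    omega
  have e1 : x.1 = y.1 := by
    funext k
    refine Fin.lastCases ?_ (fun k => ?_) k
    · exact Fin.ext h2
    · exact Fin.ext (h1 k).1
  have e2 : x.2 = y.2 := by
    funext k
    refine Fin.lastCases ?_ (fun k => ?_) k
    · apply Fin.ext; rw [hx0, hy0]
    · exact Fin.ext (h1 k).2
  exact Prod.ext e1 e2

lemma cnt_eq_one {β X : Type*} [Fintype β] (mem : β → X → Prop) (P : Finset β) (x : X)
    (b : β) (hb : b ∈ P) (hm : mem b x) (hu : ∀ b' ∈ P, mem b' x → b' = b) : cnt mem P x = 1 := by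
  unfold cnt
  rw [Finset.sum_eq_single b]
  · exact ind_of ⟨hb, hm⟩
  · intro b' _ hne
    apply ind_not
    rintro ⟨h1, h2⟩
    exact hne (hu b' h1 h2)
  · intro h; exact absurd (Finset.mem_univ _) h

lemma interior_tset {d n : ℕ} (x : (Fin d → Fin (n + 1)) × (Fin d → Fin (2 ^ n))) :
    interior (tset x) = Set.pi Set.univ (fun k => Set.Ioo (((x.2 k : ℕ) : ℝ) / 2 ^ (x.1 k : ℕ))
                    ((((x.2 k : ℕ) : ℝ) + 1) / 2 ^ (x.1 k : ℕ))) := by
  unfold tset
  rw [interior_pi_set Set.finite_univ]
  simp only [interior_Icc]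

/-- the tiles touching the last facet form a face partition. -/
lemma exists_face {m n : ℕ} (S : Finset ((Fin (m+1) → Fin (n + 1)) × (Fin (m+1) → Fin (2 ^ n))))
    (hS : S ⊆ tiles (m+1) n) (hT : IsTiling S) :
    ∃ U ⊆ S, IsFace U := by
  refine ⟨S.filter (fun x => (x.2 (Fin.last m) : ℕ) = 0), Finset.filter_subset _ _, ?_, ?_⟩
  · intro x hx
    exact (Finset.mem_filter.mp hx).2
  · intro c
    have hz := tpt_mem c
    rw [← hT.1] at hz
    simp only [Set.mem_iUnion] at hz
    obtain ⟨x, hxS, hx⟩ := hz
    have hxt := hS hxS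
    simp only [tiles, Finset.mem_filter, Finset.mem_univ, true_and] at hxt
    have hlast : (x.2 (Fin.last m) : ℕ) = 0 := by
      have h1 := (hx (Fin.last m) (Set.mem_univ _)).1
      rw [tpt_last, div_le_div_iff₀ (by positivity) (by positivity), one_mul] at h1
      by_contra hne
      have h2 : (1:ℝ) ≤ ((x.2 (Fin.last m) : ℕ) : ℝ) := by
        exact_mod_cast Nat.one_le_iff_ne_zero.mpr hne
      have h3 : (2:ℝ) ^ (x.1 (Fin.last m) : ℕ) ≤ 2 ^ n :=
        pow_le_pow_right₀ (by norm_num) (le_n x _)
      have h4 : (0:ℝ) < 2 ^ n := by positivity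
      rw [pow_succ] at h1
      nlinarith
    have hxU : x ∈ S.filter (fun x => (x.2 (Fin.last m) : ℕ) = 0) :=
      Finset.mem_filter.mpr ⟨hxS, hlast⟩
    rw [ind_of (Set.mem_univ c)]
    apply cnt_eq_one (fmem n m) _ c (lab x) (Finset.mem_image_of_mem _ hxU)
    · intro k
      have := hx k.castSucc (Set.mem_univ _)
      rw [tpt_castSucc] at this
      exact nmem_closed n _ _ _ (le_n x _) (hxt.2 _) this.1 this.2
    · intro b' hb' hm
      obtain ⟨y, hyU, rfl⟩ := Finset.mem_image.mp hb'
      have hyS := (Finset.mem_filter.mp hyU).1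
      have hylast := (Finset.mem_filter.mp hyU).2
      have hyt := hS hyS
      simp only [tiles, Finset.mem_filter, Finset.mem_univ, true_and] at hyt
      by_contra hne
      have hxy : x ≠ y := by
        rintro rfl; exact hne rfl
      have hdis := hT.2 x hxS y hyS hxy
      have hlastint : ∀ w : (Fin (m+1) → Fin (n + 1)) × (Fin (m+1) → Fin (2 ^ n)),
          (w.2 (Fin.last m) : ℕ) = 0 → tpt c (Fin.last m) ∈ Set.Ioo (((w.2 (Fin.last m) : ℕ) : ℝ) / 2 ^ (w.1 (Fin.last m) : ℕ))
            ((((w.2 (Fin.last m) : ℕ) : ℝ) + 1) / 2 ^ (w.1 (Fin.last m) : ℕ)) := by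
        intro w hw
        rw [tpt_last, hw]
        constructor
        · simp
        · simp only [Nat.cast_zero, zero_add]
          apply one_div_lt_one_div_of_lt (by positivity)
          exact pow_lt_pow_right₀ (by norm_num) (by have := le_n w (Fin.last m); omega)
      have hxin : tpt c ∈ interior (tset x) := by
        rw [interior_tset]
        intro k _
        refine Fin.lastCases ?_ (fun k => ?_) k
        · exact hlastint x hlast
        · have h1 := hx k.castSucc (Set.mem_univ _)
          rw [tpt_castSucc] at h1 ⊢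
          have h2 := nmem_closed n _ _ _ (le_n x _) (hxt.2 _) h1.1 h1.2
          exact nmem_open n _ _ _ (le_n x _) (hxt.2 _) h2
      have hyin : tpt c ∈ interior (tset y) := by
        rw [interior_tset]
        intro k _
        refine Fin.lastCases ?_ (fun k => ?_) k
        · exact hlastint y hylast
        · rw [tpt_castSucc]
          exact nmem_open n _ _ _ (le_n y _) (hyt.2 _) (hm k)
      exact Set.disjoint_left.mp hdis hxin hyin

/-- sum over supersets. -/
lemma sum_supersets {α : Type*} [DecidableEq α] (T U : Finset α) (hU : U ⊆ T) (p : ℝ) :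
    ∑ A ∈ T.powerset, (if U ⊆ A then p ^ A.card * (1 - p) ^ (T.card - A.card) else 0) = p ^ U.card := by
  rw [← Finset.sum_filter]
  have h1 : ∑ A ∈ T.powerset.filter (fun A => U ⊆ A), p ^ A.card * (1 - p) ^ (T.card - A.card)
      = ∑ B ∈ (T \ U).powerset, p ^ U.card * (p ^ B.card * (1 - p) ^ ((T \ U).card - B.card)) := by
    refine Finset.sum_nbij' (fun A => A \ U) (fun B => U ∪ B) ?_ ?_ ?_ ?_ ?_
    · intro A hA
      simp only [Finset.mem_filter, Finset.mem_powerset] at hA ⊢
      exact Finset.sdiff_subset_sdiff hA.1 (Finset.Subset.refl _)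
    · intro B hB
      simp only [Finset.mem_filter, Finset.mem_powerset] at hB ⊢
      exact ⟨Finset.union_subset hU (hB.trans Finset.sdiff_subset), Finset.subset_union_left⟩
    · intro A hA
      simp only [Finset.mem_filter, Finset.mem_powerset] at hA
      exact Finset.union_sdiff_of_subset hA.2
    · intro B hB
      simp only [Finset.mem_powerset] at hB
      rw [Finset.union_sdiff_left]
      apply Finset.sdiff_eq_self_of_disjoint
      exact Finset.disjoint_of_subset_left hB Finset.sdiff_disjoint
    · intro A hA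
      simp only [Finset.mem_filter, Finset.mem_powerset] at hA
      have c1 : (A \ U).card = A.card - U.card := Finset.card_sdiff_of_subset hA.2
      have c2 : (T \ U).card = T.card - U.card := Finset.card_sdiff_of_subset hU
      have c3 := Finset.card_le_card hA.2
      have c4 := Finset.card_le_card hA.1
      rw [c1, c2, ← mul_assoc, ← pow_add]
      congr 2 <;> omega
  rw [h1, ← Finset.mul_sum, Finset.sum_pow_mul_eq_add_pow]
  simp

/-- union bound. -/
lemma prob_le {m n : ℕ} (p : ℝ≥0) (hp : p ≤ 1) :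
    ∑ A ∈ (tiles (m+1) n).powerset, (if ∃ S ⊆ A, IsTiling S then
      (p:ℝ) ^ A.card * (1 - (p:ℝ)) ^ ((tiles (m+1) n).card - A.card) else 0)
      ≤ (F (fmem n m) p Set.univ : ℝ≥0) := by
  have hp1 : (0:ℝ) ≤ 1 - (p:ℝ) := by
    have : (p:ℝ) ≤ 1 := by exact_mod_cast hp
    linarith
  have hp0 : (0:ℝ) ≤ p := p.2
  calc ∑ A ∈ (tiles (m+1) n).powerset, (if ∃ S ⊆ A, IsTiling S then
      (p:ℝ) ^ A.card * (1 - (p:ℝ)) ^ ((tiles (m+1) n).card - A.card) else 0)
      ≤ ∑ A ∈ (tiles (m+1) n).powerset, ∑ U ∈ (tiles (m+1) n).powerset.filter (fun U => IsFace U),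
        (if U ⊆ A then (p:ℝ) ^ A.card * (1 - (p:ℝ)) ^ ((tiles (m+1) n).card - A.card) else 0) := by
        apply Finset.sum_le_sum
        intro A hA
        rw [Finset.mem_powerset] at hA
        have hnn : ∀ U ∈ (tiles (m+1) n).powerset.filter (fun U => IsFace U),
            0 ≤ (if U ⊆ A then (p:ℝ) ^ A.card * (1 - (p:ℝ)) ^ ((tiles (m+1) n).card - A.card) else 0) := by
          intro U _
          split_ifs <;> positivity
        split_ifs with h
        · obtain ⟨S, hSA, hS⟩ := h
          obtain ⟨U, hUS, hU⟩ := exists_face S (hSA.trans hA) hS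
          have hUm : U ∈ (tiles (m+1) n).powerset.filter (fun U => IsFace U) := by
            rw [Finset.mem_filter, Finset.mem_powerset]
            exact ⟨(hUS.trans hSA).trans hA, hU⟩
          have := Finset.single_le_sum hnn hUm
          rw [if_pos (hUS.trans hSA)] at this
          exact this
        · exact Finset.sum_nonneg hnn
    _ = ∑ U ∈ (tiles (m+1) n).powerset.filter (fun U => IsFace U), (p:ℝ) ^ U.card := by
        rw [Finset.sum_comm]
        apply Finset.sum_congr rfl
        intro U hU
        rw [Finset.mem_filter, Finset.mem_powerset] at hU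
        exact sum_supersets _ U hU.1 p
    _ = ((∑ U : Finset ((Fin (m+1) → Fin (n + 1)) × (Fin (m+1) → Fin (2 ^ n))),
          (if U ⊆ tiles (m+1) n ∧ IsFace U then p ^ U.card else 0) : ℝ≥0) : ℝ) := by
        rw [← Finset.sum_filter]
        push_cast
        apply Finset.sum_congr _ (fun _ _ => rfl)
        ext U
        simp
    _ ≤ _ := by
        rw [NNReal.coe_le_coe]
        unfold F
        apply sum_le_of_inj (fun U => U.image lab)
        · intro U V hU hV hUV
          simp only [ne_eq, ite_eq_right_iff, Classical.not_imp] at hU hV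
          obtain ⟨⟨hU1, hU2⟩, -⟩ := hU
          obtain ⟨⟨hV1, hV2⟩, -⟩ := hV
          ext x
          constructor
          · intro hx
            have : lab x ∈ V.image lab := by rw [← hUV]; exact Finset.mem_image_of_mem _ hx
            obtain ⟨y, hy, hxy⟩ := Finset.mem_image.mp this
            have := lab_inj y x (hV1 hy) (hU1 hx) (hV2.1 y hy) (hU2.1 x hx) hxy
            rw [← this]; exact hy
          · intro hx
            have : lab x ∈ U.image lab := by rw [hUV]; exact Finset.mem_image_of_mem _ hx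
            obtain ⟨y, hy, hxy⟩ := Finset.mem_image.mp this
            have := lab_inj y x (hU1 hy) (hV1 hx) (hU2.1 y hy) (hV2.1 x hx) hxy
            rw [← this]; exact hy
        · intro U hU
          simp only [ne_eq, ite_eq_right_iff, Classical.not_imp] at hU
          obtain ⟨⟨hU1, hU2⟩, -⟩ := hU
          rw [if_pos ⟨hU1, hU2⟩, if_pos hU2.2, Finset.card_image_of_injOn]
          intro x hx y hy hxy
          exact lab_inj x y (hU1 hx) (hU1 hy) (hU2.1 x hx) (hU2.1 y hy) hxy

/-- explicit tiling by strips, in positive dimension. -/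
lemma exists_tiling (m n : ℕ) : ∃ S ⊆ tiles (m+1) n, IsTiling S := by
  -- strip `a`
  let st : Fin (2 ^ n) → (Fin (m+1) → Fin (n + 1)) × (Fin (m+1) → Fin (2 ^ n)) := fun a =>
    (fun k => if k = 0 then Fin.last n else 0, fun k => if k = 0 then a else ⟨0, by positivity⟩)
  refine ⟨Finset.univ.image st, ?_, ?_, ?_⟩
  · intro x hx
    obtain ⟨a, -, rfl⟩ := Finset.mem_image.mp hx
    simp only [tiles, Finset.mem_filter, Finset.mem_univ, true_and]
    constructor
    · rw [Finset.sum_eq_single 0]
      · simp [st]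
      · intro k _ hk; simp [st, hk]
      · intro h; exact absurd (Finset.mem_univ _) h
    · intro k
      by_cases hk : k = 0
      · subst hk; simp only [st, if_true, Fin.val_last]; exact a.2
      · simp [st, hk]
  · ext z
    simp only [Set.mem_iUnion, exists_prop]
    constructor
    · rintro ⟨x, hx, hz⟩
      obtain ⟨a, -, rfl⟩ := Finset.mem_image.mp hx
      have ha : ((a : ℕ) : ℝ) + 1 ≤ 2 ^ n := by exact_mod_cast a.2
      constructor
      · intro k
        have := hz k (Set.mem_univ _)
        refine le_trans ?_ this.1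
        simp only [Pi.zero_apply]; positivity
      · intro k
        have := hz k (Set.mem_univ _)
        refine le_trans this.2 ?_
        by_cases hk : k = 0
        · subst hk
          simp only [st, if_true, Fin.val_last, Pi.one_apply]
          rw [div_le_one (by positivity)]; exact ha
        · simp [st, hk]
    · intro hz
      have hz0 : 0 ≤ z 0 := hz.1 0
      have hz1 : z 0 ≤ 1 := hz.2 0
      have h2 : (0:ℝ) < 2 ^ n := by positivity
      have hN : 0 < 2 ^ n := by positivity
      -- choose the strip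
      by_cases hlt : ⌊z 0 * 2 ^ n⌋₊ < 2 ^ n
      · refine ⟨st ⟨⌊z 0 * 2 ^ n⌋₊, hlt⟩, Finset.mem_image_of_mem _ (Finset.mem_univ _), ?_⟩
        intro k _
        by_cases hk : k = 0
        · subst hk
          simp only [st, if_true, Fin.val_last]
          constructor
          · rw [div_le_iff₀ h2]
            exact Nat.floor_le (by positivity)
          · rw [le_div_iff₀ h2]
            exact (Nat.lt_floor_add_one _).le
        · simp only [st, hk, if_false, Fin.val_zero, pow_zero, Nat.cast_zero, zero_add, div_one]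
          exact ⟨hz.1 k, hz.2 k⟩
      · push Not at hlt
        have h3 : (2:ℝ) ^ n ≤ z 0 * 2 ^ n := by
          have := Nat.floor_le (a := z 0 * 2 ^ n) (by positivity)
          refine le_trans ?_ this
          exact_mod_cast hlt
        have h4 : z 0 = 1 := by nlinarith
        refine ⟨st ⟨2 ^ n - 1, by omega⟩, Finset.mem_image_of_mem _ (Finset.mem_univ _), ?_⟩
        intro k _
        by_cases hk : k = 0
        · subst hk
          simp only [st, if_true, Fin.val_last]
          rw [h4, Nat.cast_sub (by omega)]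
          push_cast
          constructor
          · rw [div_le_iff₀ h2]; linarith
          · rw [le_div_iff₀ h2]; linarith
        · simp only [st, hk, if_false, Fin.val_zero, pow_zero, Nat.cast_zero, zero_add, div_one]
          exact ⟨hz.1 k, hz.2 k⟩
  · intro x hx y hy hxy
    obtain ⟨a, -, rfl⟩ := Finset.mem_image.mp hx
    obtain ⟨b, -, rfl⟩ := Finset.mem_image.mp hy
    have hab : a ≠ b := by rintro rfl; exact hxy rfl
    rw [interior_tset, interior_tset, Set.disjoint_left]
    intro z hz hz'
    have h1 := hz 0 (Set.mem_univ _)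
    have h2 := hz' 0 (Set.mem_univ _)
    have h0 : (0:ℝ) < 2 ^ n := by positivity
    simp only [st, if_true, Fin.val_last] at h1 h2
    obtain ⟨h3, h4⟩ := h1
    obtain ⟨h5, h6⟩ := h2
    rw [div_lt_iff₀ h0] at h3 h5
    rw [lt_div_iff₀ h0] at h4 h6
    have h7 : ((a:ℕ):ℝ) < (b:ℕ) + 1 := by linarith
    have h8 : ((b:ℕ):ℝ) < (a:ℕ) + 1 := by linarith
    have h9 : (a:ℕ) < b + 1 := by exact_mod_cast h7
    have h10 : (b:ℕ) < a + 1 := by exact_mod_cast h8
    exact hab (Fin.ext (by omega))

end Pool.Agent.H27.Dyadic
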