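import Pool.Agent.H27.DyadicAbs
import Pool.Agent.H27.DyadicGeo

set_option autoImplicit false
open Classical

/-! The tiling probability in terms of the helper definitions, with the linear bound. -/

namespace Pool.Agent.H27.Dyadic

/-- the tiling probability, in terms of the helper definitions. -/
noncomputable def prb (d n : ℕ) (p : ℝ) : ℝ :=
  ∑ A ∈ (tiles d n).powerset, (if ∃ S ⊆ A, IsTiling S then
    p ^ A.card * (1 - p) ^ ((tiles d n).card - A.card) else 0)

/-- the constants in closed form -/
lemma lam_eq (m : ℕ) : (lam m : ℝ) = 4 / 4 ^ (2 ^ m) := by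
  induction m with
  | zero => simp [lam]
  | succ m ih =>
    have h : (lam (m + 1) : ℝ) = (lam m : ℝ) ^ 2 / 4 := by simp [lam]
    rw [h, ih, pow_succ 2 m, pow_mul]
    field_simp

lemma prb_le (m n : ℕ) (p : ℝ) (hp0 : 0 ≤ p) (hp : p ≤ (lam m : ℝ)) :
    prb (m+1) n p ≤ p / lam m := by
  have hl := lam_pos m
  have hl1 := lam_le_one m
  have hl' : (0:ℝ) < lam m := by exact_mod_cast hl
  have hl1' : (lam m : ℝ) ≤ 1 := by exact_mod_cast hl1
  let c : NNReal := ⟨p / lam m, by positivity⟩
  have hcr : (c : ℝ) = p / lam m := rfl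
  have hc : c ≤ 1 := by
    rw [← NNReal.coe_le_coe, hcr]
    push_cast
    rw [div_le_iff₀ hl']
    linarith
  have hpc : p = ((c * lam m : NNReal) : ℝ) := by
    push_cast
    rw [hcr]
    field_simp
  have hle : c * lam m ≤ 1 := by
    rw [← NNReal.coe_le_coe, ← hpc]
    push_cast
    linarith
  have h1 : prb (m+1) n ((c * lam m : NNReal) : ℝ) ≤
      ((F (fmem n m) (c * lam m) Set.univ : NNReal) : ℝ) := by
    refine le_trans (le_of_eq ?_) (prob_le (m := m) (n := n) (c * lam m) hle)
    unfold prb
    refine Finset.sum_congr rfl (fun A _ => ?_)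
    by_cases h : ∃ S ⊆ A, IsTiling S
    · simp only [if_pos h]
    · simp only [if_neg h]
  rw [← hpc] at h1
  have h2 := F_univ_le n m c hc
  have h3 : ((F (fmem n m) (c * lam m) Set.univ : NNReal) : ℝ) ≤ c := by exact_mod_cast h2
  exact h1.trans (h3.trans (le_of_eq hcr))

lemma prb_one (m n : ℕ) : prb (m+1) n 1 = 1 := by
  unfold prb
  rw [Finset.sum_eq_single (tiles (m+1) n)]
  · rw [if_pos (exists_tiling m n)]
    simp
  · intro A hA hne
    rw [Finset.mem_powerset] at hA
    have hlt : A.card < (tiles (m+1) n).card :=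
      Finset.card_lt_card (lt_of_le_of_ne hA hne)
    have : (tiles (m+1) n).card - A.card ≠ 0 := by omega
    split_ifs
    · rw [sub_self, zero_pow this, mul_zero]
    · rfl
  · intro h; exact absurd (Finset.mem_powerset_self _) h

end Pool.Agent.H27.Dyadic
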